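import Pool.Agent.Helper55_Fine.Res
import Pool.Agent.Helper8_Fine.Pdk
import Pool.Agent.Helper44_BLK.Psg

/-!
FINE module BR (the resolvent of the Dirichlet Laplacian is the Laplace transform of the heat
semigroup), cut into small lemmas.
-/

set_option autoImplicit false

namespace Pool.Agent.H6BR

open MeasureTheory Complex Filter Topology ProbabilityTheory Pool.Agent.H16Iso Pool.Agent.H62T
  Pool.Agent.H16F
open scoped ENNReal NNReal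

/-- the heat semigroup of `D` -/
noncomputable def Pf (D : Set ℂ) (t : ℝ) (f : ℂ → ℝ) (x : ℂ) : ℝ := ∫ y, pD D t x y * f y

/-- the heat semigroup of the plane -/
noncomputable def Gf (t : ℝ) (f : ℂ → ℝ) (x : ℂ) : ℝ := ∫ y, G t (x - y) * f y

/-- the resolvent -/
noncomputable def Rf (κ : ℝ) (D : Set ℂ) (f : ℂ → ℝ) (x : ℂ) : ℝ :=
  ∫ t in Set.Ioi (0 : ℝ), Real.exp (-(κ ^ 2 * t)) * Pf D t f x

/-- PT: the semigroup on `L²` -/
def PtStatement : Prop := ∀ D : Set ℂ, IsOpen D →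
  (∀ f : ℂ → ℝ, MemLp f 2 volume → Measurable fun p : ℝ × ℂ => Pf D p.1 f p.2) ∧
  ∀ t : ℝ, 0 < t →
    (∀ f : ℂ → ℝ, MemLp f 2 volume → MemLp (Pf D t f) 2 volume ∧
      ∫ x, Pf D t f x ^ 2 ≤ ∫ x, f x ^ 2 ∧ (∀ x, x ∉ D → Pf D t f x = 0) ∧
      ∀ x, Integrable (fun y => pD D t x y * f y)) ∧
    (∀ f g : ℂ → ℝ, MemLp f 2 volume → MemLp g 2 volume →
      ∫ x, Pf D t f x * g x = ∫ x, f x * Pf D t g x) ∧
    (∀ f : ℂ → ℝ, MemLp f 2 volume → (∀ x, 0 ≤ f x) → ∀ x, 0 ≤ Pf D t f x ∧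
      Pf D t f x ≤ Gf t f x) ∧
    ∀ s : ℝ, 0 < s → ∀ f : ℂ → ℝ, MemLp f 2 volume → ∀ x, Pf D s (Pf D t f) x = Pf D (s + t) f x

/-- RT: the resolvent on `L²` -/
def RtStatement : Prop := ∀ (κ : ℝ) (D : Set ℂ), 0 < κ → IsOpen D →
  (∀ f : ℂ → ℝ, MemLp f 2 volume → MemLp (Rf κ D f) 2 volume ∧ ∀ x, x ∉ D → Rf κ D f x = 0) ∧
  ∀ f g : ℂ → ℝ, MemLp f 2 volume → MemLp g 2 volume →
    IntegrableOn (fun t => Real.exp (-(κ ^ 2 * t)) * ∫ x, Pf D t f x * g x) (Set.Ioi 0) ∧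
    ∫ x, Rf κ D f x * g x
      = ∫ t in Set.Ioi (0 : ℝ), Real.exp (-(κ ^ 2 * t)) * ∫ x, Pf D t f x * g x ∧
    ∀ s : ℝ, 0 < s → ∫ x, Pf D s (Rf κ D f) x * g x
      = Real.exp (κ ^ 2 * s) * (∫ x, Rf κ D f x * g x
        - ∫ t in Set.Ioc 0 s, Real.exp (-(κ ^ 2 * t)) * ∫ x, Pf D t f x * g x)

/-- GC: near a compact subset of `D` the boundary is not felt. For a square of side `2 r` centred
at `y`, `G - pD ≤ ∑ (G - pD half-plane)` (four half-planes, HPK of helper15, union bound for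
`bridge'`). -/
def GcStatement : Prop := ∀ D K : Set ℂ, IsOpen D → IsCompact K → K ⊆ D → ∃ C c : ℝ, 0 < c ∧
  ∀ s : ℝ, 0 < s → ∀ x, ∀ y ∈ K,
    |G s (x - y) - pD D s x y| ≤ C * Real.exp (-(c / s)) * G (4 * s) (x - y)

/-- GT: Taylor's formula for the heat semigroup of the plane. The remainder
`φ (x + w) - φ x - Dφ x w - D²φ x w w / 2` is at most `C |w|³` and vanishes if `x` is farther than
`|w|` from the support. -/
def GtStatement : Prop := ∀ φ ∈ Test Set.univ, ∃ C : ℝ, ∀ s : ℝ, 0 < s → s ≤ 1 →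
  MemLp (fun x => Gf s φ x - φ x - s * lap φ x) 2 volume ∧
    ∫ x, (Gf s φ x - φ x - s * lap φ x) ^ 2 ≤ C * s ^ 3

/-- TS: the same for `D` (GC and GT) -/
def TsStatement : Prop := ∀ D : Set ℂ, IsOpen D → ∀ φ ∈ Test D, ∃ C : ℝ, ∀ s : ℝ, 0 < s → s ≤ 1 →
  ∫ x, (Pf D s φ x - φ x - s * lap φ x) ^ 2 ≤ C * s ^ 3

/-- DER: the weak equation -/
def DerStatement : Prop := ∀ (κ : ℝ) (D : Set ℂ), 0 < κ → IsOpen D →
  ∀ f : ℂ → ℝ, MemLp f 2 volume → ∀ φ ∈ Test D,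
    ∫ x, Rf κ D f x * (κ ^ 2 * φ x - lap φ x) = ∫ x, f x * φ x

/-- H1: a criterion for `H¹`. With `D w = ∫ (h (x + w) - h x)²`:
`∫ h (h - Gf s h) = (1/2) ∫ G s w * D w`, `D v ≤ 2 D w + 2 D (v - w)`, average over `w` in the ball
with centre `v/2` and radius `‖v‖/2`, `s = ‖v‖²`: `D v ≤ C ‖v‖²`; then Riesz. -/
def H1Statement : Prop := ∀ h : ℂ → ℝ, MemLp h 2 volume →
  (∃ C : ℝ, ∀ s : ℝ, 0 < s → s ≤ 1 → ∫ x, h x * (h x - Gf s h x) ≤ C * s) → ∃ g, Grad h g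

/-- ENE: energy of the resolvent of a nonnegative function -/
def EneStatement : Prop := ∀ (κ : ℝ) (D : Set ℂ), 0 < κ → IsOpen D →
  ∀ f : ℂ → ℝ, MemLp f 2 volume → (∀ x, 0 ≤ f x) → ∃ C : ℝ, ∀ s : ℝ, 0 < s → s ≤ 1 →
    ∫ x, Rf κ D f x * (Rf κ D f x - Gf s (Rf κ D f) x) ≤ C * s

/-- SOL: the Laplace transform of the semigroup solves the equation -/
def SolStatement : Prop := ∀ (κ : ℝ) (D : Set ℂ), 0 < κ → IsOpen D →
  ∀ f : ℂ → ℝ, MemLp f 2 volume → Sol κ D f (Rf κ D f)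

end Pool.Agent.H6BR
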